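import Mathlib
import Pool.Agent.H902R3.XI.Stmts

open Complex MeasureTheory Filter Topology Set Metric
open scoped Real ENNReal

namespace Pool.Agent.H92R3.XI
open Pool.Agent.H902R3.XI

theorem taskZ3 (hZ1 : TaskZ1) (hZ2 : TaskZ2) : TaskZ3 := by
  intro κ κ' β hκ0 hκ1 hκ'0 hκ'1 hβ
  obtain ⟨δ, hδ, H2⟩ := hZ2 κ (κ' / 2) β hκ0 hκ1 (by linarith) (by linarith) hβ
  have hlog : 0 < Real.log (4 / κ') := by
    apply Real.log_pos
    rw [lt_div_iff₀ hκ'0]
    linarith
  set lg := Real.log (4 / κ') with hlg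
  refine ⟨δ / (2 * lg), 2 / δ, by positivity, by positivity, ?_⟩
  intro B R c f hB hR hf hfB hf1 hex
  by_contra hcon
  rw [not_le] at hcon
  have hB0 : 0 < B := lt_of_lt_of_le (by positivity) hB
  have hδB : 2 ≤ δ * B := by
    rw [div_le_iff₀ hδ] at hB
    linarith
  have hr : 0 < κ' * R := by positivity
  have hrR : κ' * R < R := by nlinarith
  have hne : ∀ s ∈ closedBall c (κ' * R), f s ≠ 0 := by
    intro s hs h0
    have := hf1 s hs
    rw [h0, zero_sub, norm_neg, norm_one] at this
    norm_num at this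
  obtain ⟨F, hFan, hFne, hFB, hfF, hFf⟩ := hZ1 B R (κ' * R) c f hB0 hR hr hrR hf hfB hne
    (δ / (2 * lg) * B) (by positivity) hcon.le
  have hratio : 4 * R / (κ' * R) = 4 / κ' := by
    field_simp
  have hpow : (4 * R / (κ' * R)) ^ (δ / (2 * lg) * B) = Real.exp (δ * B / 2) := by
    rw [hratio, Real.rpow_def_of_pos (by positivity), ← hlg]
    congr 1
    field_simp
  have hlt := H2 B R c F hB0 hR hFan hFne hFB ?_
  · obtain ⟨s, hs, hs2⟩ := hex
    have h1 := hlt s hs
    have hsb : s ∈ ball c R := by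
      rw [mem_ball]
      rw [mem_closedBall] at hs
      nlinarith
    have h2 := hfF s hsb
    linarith
  · intro s hs
    have hs' : s ∈ closedBall c (κ' * R / 2) := by
      rw [mem_closedBall] at hs ⊢
      linarith
    have hs1 : s ∈ closedBall c (κ' * R) := by
      rw [mem_closedBall] at hs' ⊢
      linarith
    have hsb : s ∈ ball c R := by
      rw [mem_ball]
      rw [mem_closedBall] at hs1
      linarith
    have h1 := hf1 s hs1
    have hlow : 1 / 2 ≤ ‖f s‖ := by
      have : ‖(1 : ℂ)‖ ≤ ‖f s‖ + ‖f s - 1‖ := by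
        have h := norm_sub_le (f s) (f s - 1)
        rwa [sub_sub_cancel] at h
      rw [norm_one] at this
      linarith
    have hup : ‖f s‖ ≤ 3 / 2 := by
      have h := norm_add_le (f s - 1) 1
      rw [sub_add_cancel, norm_one] at h
      linarith
    constructor
    · have h3 : Real.exp (-(δ * B)) ≤ 1 / 2 := by
        rw [Real.exp_neg, one_div]
        apply inv_anti₀ (by norm_num)
        have := Real.add_one_le_exp (δ * B)
        linarith
      linarith [hfF s hsb]
    · have h4 := hFf s hs'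
      rw [hpow] at h4
      have h5 : (3 : ℝ) / 2 ≤ Real.exp (δ * B / 2) := by
        have := Real.add_one_le_exp (δ * B / 2)
        linarith
      calc ‖F s‖ ≤ ‖f s‖ * Real.exp (δ * B / 2) := h4
        _ ≤ 3 / 2 * Real.exp (δ * B / 2) := by gcongr
        _ ≤ Real.exp (δ * B / 2) * Real.exp (δ * B / 2) := by gcongr
        _ = Real.exp (δ * B) := by rw [← Real.exp_add]; congr 1; ring

end Pool.Agent.H92R3.XI
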